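import Pool.Agent.Y448.MC.DetgA

/-!
# MC4-DETG (helper448; adaptation of Pool.Agent.Y932.MC.Det3 and Pool.Agent.Y86.MC.NiceB)
-/

set_option autoImplicit false

namespace Pool.Agent.Y448.MC

open MeasureTheory Filter Finset Pool.Agent.Y957.MC

/-- from mean square bounds for blocks to convergence along powers -/
theorem ae_blockG (G : ℕ → ℝ → ℂ) (hGm : ∀ n, Measurable (G n)) (hG : ∀ n a, ‖G n a‖ ≤ 1) (ε A : ℝ)
    (hA : 0 < A) (R : ℕ → ℝ) (m : ℕ) (hm0 : 0 < m) (l₀ : ℕ)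
    (hs : Summable fun l : ℕ => R ((l + l₀ + 1) ^ m))
    (hR : ∀ᶠ N : ℕ in atTop,
      ∫ a in A..2 * A, ‖(1 / (N : ℂ)) * ∑ n ∈ Ioc ⌊ε * N⌋₊ N, G n a‖ ^ 2 ≤ R N) :
    ∀ᵐ a ∂(volume.restrict (Set.Ioc A (2 * A))),
      Tendsto (fun l : ℕ => (1 / (((l + 1) ^ m : ℕ) : ℂ)) *
      ∑ n ∈ Ioc ⌊ε * (((l + 1) ^ m : ℕ) : ℝ)⌋₊ ((l + 1) ^ m), G n a) atTop (nhds 0) := by
  obtain ⟨N₁, hN₁⟩ := eventually_atTop.1 hR
  let D : ℕ → ℝ → ℂ := fun N a => (1 / (N : ℂ)) * ∑ n ∈ Ioc ⌊ε * N⌋₊ N, G n a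
  have hDm : ∀ N, Measurable (D N) := by
    intro N
    refine Measurable.const_mul ?_ _
    exact Finset.measurable_sum _ fun n _ => hGm n
  have hDb : ∀ N a, ‖D N a‖ ≤ 1 := by
    intro N a
    change ‖(1 / (N : ℂ)) * ∑ n ∈ Ioc ⌊ε * N⌋₊ N, G n a‖ ≤ 1
    rw [norm_mul, norm_div, norm_one, Complex.norm_natCast]
    rcases Nat.eq_zero_or_pos N with hN | hN
    · rw [hN]
      simp
    · have h1 : ‖∑ n ∈ Ioc ⌊ε * N⌋₊ N, G n a‖ ≤ N := by
        refine (norm_sum_le _ _).trans ?_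
        refine (Finset.sum_le_sum fun n _ => hG n a).trans ?_
        rw [Finset.sum_const, Nat.card_Ioc, nsmul_eq_mul, mul_one]
        exact_mod_cast Nat.sub_le _ _
      have hN' : (0 : ℝ) < N := Nat.cast_pos.2 hN
      rw [one_div, inv_mul_le_iff₀ hN', mul_one]
      exact h1
  set l₁ := max l₀ N₁ with hl₁
  have hs' : Summable fun l : ℕ => R ((l + l₁ + 1) ^ m) := by
    have h1 := (summable_nat_add_iff (l₁ - l₀)).2 hs
    refine h1.congr fun l => ?_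
    congr 2
    have : l₀ ≤ l₁ := le_max_left _ _
    omega
  have hge : ∀ l : ℕ, N₁ ≤ (l + l₁ + 1) ^ m := by
    intro l
    have h1 : N₁ ≤ l₁ := le_max_right _ _
    calc N₁ ≤ l + l₁ + 1 := by omega
      _ ≤ _ := Nat.le_self_pow hm0.ne' _
  have key := Pool.Agent.Y86.MC.ae_summable_of (volume.restrict (Set.Ioc A (2 * A)))
    (fun l a => ‖D ((l + l₁ + 1) ^ m) a‖ ^ 2) (fun l => ((hDm _).norm).pow_const 2)
    (fun l a => by positivity) _ hs' (fun l => by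
      refine Integrable.of_bound (((hDm _).norm).pow_const 2).aestronglyMeasurable 1 ?_
      refine ae_of_all _ fun a => ?_
      rw [Real.norm_eq_abs, abs_of_nonneg (by positivity)]
      exact pow_le_one₀ (norm_nonneg _) (hDb _ _)) (fun l => by
      have h1 := hN₁ _ (hge l)
      rw [intervalIntegral.integral_of_le (by linarith)] at h1
      exact h1)
  filter_upwards [key] with a ha
  have h2 := ha.tendsto_atTop_zero
  have h3 : Tendsto (fun l => ‖D ((l + l₁ + 1) ^ m) a‖) atTop (nhds 0) := by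
    have h4 := h2.sqrt
    rw [Real.sqrt_zero] at h4
    refine h4.congr fun l => ?_
    rw [Real.sqrt_sq (norm_nonneg _)]
  have h5 : Tendsto (fun l => D ((l + l₁ + 1) ^ m) a) atTop (nhds 0) :=
    tendsto_zero_iff_norm_tendsto_zero.2 h3
  have h6 : Tendsto (fun l => D ((l + 1) ^ m) a) atTop (nhds 0) := by
    rw [← tendsto_add_atTop_iff_nat l₁]
    exact h5
  exact h6

/-- half of the difference of one term and one integral -/
noncomputable def GG (p : ℝ → ℝ) (F : ℝ → ℂ) (n : ℕ) (a : ℝ) : ℂ :=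
  (1 / 2 : ℂ) * (F (a * p n) - ∫ v in ((n : ℝ) - 1)..n, F (a * p v))

theorem GG_meas {p : ℝ → ℝ} (hpm : Measurable p) {F : ℝ → ℂ} (hF : Measurable F) (n : ℕ) :
    Measurable (GG p F n) := by
  unfold GG
  refine Measurable.const_mul ?_ _
  refine (hF.comp (measurable_id.mul_const _)).sub ?_
  have h1 : (fun a : ℝ => ∫ v in ((n : ℝ) - 1)..n, F (a * p v)) =
      fun a : ℝ => ∫ v in Set.Ioc ((n : ℝ) - 1) n, F (a * p v) := by
    funext a
    exact intervalIntegral.integral_of_le (by linarith)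
  rw [h1]
  have h2 : StronglyMeasurable (fun q : ℝ × ℝ => F (q.1 * p q.2)) :=
    (hF.comp (measurable_fst.mul (hpm.comp measurable_snd))).stronglyMeasurable
  exact (h2.integral_prod_right' (ν := volume.restrict (Set.Ioc ((n : ℝ) - 1) n))).measurable

theorem GG_norm {p : ℝ → ℝ} {F : ℝ → ℂ} (hF1 : ∀ v, ‖F v‖ ≤ 1) (n : ℕ) (a : ℝ) : ‖GG p F n a‖ ≤ 1 := by
  unfold GG
  have h1 : ‖∫ v in ((n : ℝ) - 1)..n, F (a * p v)‖ ≤ 1 := by
    refine (intervalIntegral.norm_integral_le_of_norm_le_const (C := 1) fun v _ => hF1 _).trans ?_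
    rw [one_mul, abs_of_nonneg (by linarith)]
    linarith
  have h2 := (norm_sub_le (F (a * p n)) (∫ v in ((n : ℝ) - 1)..n, F (a * p v))).trans
    (add_le_add (hF1 _) h1)
  rw [norm_mul]
  have h3 : ‖(1 / 2 : ℂ)‖ = 1 / 2 := by norm_num
  rw [h3]
  linarith

theorem sum_GG {p : ℝ → ℝ} (hpm : Measurable p) {F : ℝ → ℂ} (hF : Measurable F) (hF1 : ∀ v, ‖F v‖ ≤ 1)
    {M N : ℕ} (hMN : M ≤ N) (a : ℝ) : ∑ n ∈ Ioc M N, GG p F n a =
      (1 / 2 : ℂ) * (∑ n ∈ Ioc M N, F (a * p n) - ∫ v in (M : ℝ)..N, F (a * p v)) := by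
  have hi : ∀ u v : ℝ, IntervalIntegrable (fun v => F (a * p v)) volume u v := by
    intro u v
    refine (intervalIntegrable_const (c := (1 : ℝ))).mono_fun
      (hF.comp (measurable_const.mul hpm)).aestronglyMeasurable (ae_of_all _ fun x => ?_)
    rw [norm_one]
    exact hF1 _
  unfold GG
  rw [← mul_sum, sum_sub_distrib]
  congr 2
  induction N, hMN using Nat.le_induction with
  | base => simp
  | succ N hN ih =>
    rw [Finset.sum_Ioc_succ_top (by omega), ih]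
    push_cast
    rw [add_sub_cancel_right]
    exact intervalIntegral.integral_add_adjacent_intervals (hi _ _) (hi _ _)

/-- (DETG) -/
theorem detg (h1 : S_PARM) (h2 : S_PSG) (h3 : S_TAIL) (h4 : S_PAR) : S_DETG := by
  intro p hp hpm F hF hF1 hmod
  have hGm := GG_meas hpm hF
  have hG1 := GG_norm (p := p) hF1
  have h5 : ∀ i : ℤ, ∀ᵐ a ∂(volume.restrict (Set.Ioc ((2 : ℝ) ^ i) ((2 : ℝ) ^ (i + 1)))),
      Tendsto (fun N : ℕ => (1 / (N : ℂ)) * ∑ n ∈ Icc 1 N, GG p F n a) atTop (nhds 0) := by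
    intro i
    have h6 : ∀ j : ℕ, ∃ m : ℕ, 0 < m ∧
        ∀ᵐ a ∂(volume.restrict (Set.Ioc ((2 : ℝ) ^ i) ((2 : ℝ) ^ (i + 1)))),
        Tendsto (fun l : ℕ => (1 / (((l + 1) ^ m : ℕ) : ℂ)) *
          ∑ n ∈ Ioc ⌊(1 / ((j : ℝ) + 1)) * (((l + 1) ^ m : ℕ) : ℝ)⌋₊ ((l + 1) ^ m),
            GG p F n a) atTop (nhds 0) := by
      intro j
      have hj1 : 1 / ((j : ℝ) + 1) ≤ 1 := by
        rw [div_le_one (by positivity)]
        have : (0 : ℝ) ≤ j := Nat.cast_nonneg j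
        linarith
      obtain ⟨δ, C', hδ, hR⟩ := blk h1 h2 h3 h4 hp hpm hF hF1 hmod (ε := 1 / ((j : ℝ) + 1))
        (A := (2 : ℝ) ^ i) (by positivity) hj1 (by positivity)
      obtain ⟨m, hm⟩ := exists_nat_gt (1 / δ)
      have hm1 : 1 < m * δ := by
        rw [div_lt_iff₀ hδ] at hm
        exact hm
      have hm0 : 0 < m := by
        rcases Nat.eq_zero_or_pos m with h0 | h0
        · rw [h0] at hm1
          norm_num at hm1
        · exact h0
      refine ⟨m, hm0, ?_⟩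
      have h7 := ae_blockG (GG p F) hGm hG1 (1 / ((j : ℝ) + 1)) ((2 : ℝ) ^ i) (by positivity)
        (fun N => (1 / 4 * C') * (N : ℝ) ^ (-δ)) m hm0 0
        (Pool.Agent.Y86.MC.summable_bound hm1 0) (by
          filter_upwards [hR] with N hN
          have hMN : ⌊1 / ((j : ℝ) + 1) * (N : ℝ)⌋₊ ≤ N := by
            refine Nat.floor_le_of_le ?_
            have : (0 : ℝ) ≤ N := Nat.cast_nonneg N
            nlinarith
          have e1 : ∀ a : ℝ, ‖(1 / (N : ℂ)) * ∑ n ∈ Ioc ⌊1 / ((j : ℝ) + 1) * (N : ℝ)⌋₊ N, GG p F n a‖ ^ 2 =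
              1 / 4 * ‖(1 / (N : ℂ)) * (∑ n ∈ Ioc ⌊1 / ((j : ℝ) + 1) * (N : ℝ)⌋₊ N, F (a * p n) -
                ∫ v in (⌊1 / ((j : ℝ) + 1) * (N : ℝ)⌋₊ : ℝ)..N, F (a * p v))‖ ^ 2 := by
            intro a
            rw [sum_GG hpm hF hF1 hMN, mul_left_comm, norm_mul (1 / 2 : ℂ), mul_pow]
            have h3 : ‖(1 / 2 : ℂ)‖ = 1 / 2 := by norm_num
            rw [h3]
            norm_num
          simp only [e1]
          rw [intervalIntegral.integral_const_mul, mul_assoc]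
          exact mul_le_mul_of_nonneg_left hN (by norm_num))
      have h8 : 2 * (2 : ℝ) ^ i = 2 ^ (i + 1) := by
        rw [zpow_add₀ two_ne_zero, zpow_one, mul_comm]
      rw [h8] at h7
      exact h7
    choose m hm0 hm using h6
    filter_upwards [ae_all_iff.2 hm] with a ha
    exact Pool.Agent.Y86.MC.det (fun n => hG1 n a) fun j => ⟨m j, hm0 j, ha j⟩
  have h7 : ∀ᵐ a ∂(volume.restrict (⋃ i : ℤ, Set.Ioc ((2 : ℝ) ^ i) ((2 : ℝ) ^ (i + 1)))),
      Tendsto (fun N : ℕ => (1 / (N : ℂ)) * ∑ n ∈ Icc 1 N, GG p F n a) atTop (nhds 0) := by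
    rw [ae_restrict_iUnion_iff]
    exact h5
  have h8 : ∀ᵐ a : ℝ ∂(volume.restrict (Set.Ioi (0 : ℝ))),
      Tendsto (fun N : ℕ => (1 / (N : ℂ)) * ∑ n ∈ Icc 1 N, GG p F n a) atTop (nhds 0) := by
    refine ae_mono (Measure.restrict_mono_set _ ?_) h7
    intro a ha
    obtain ⟨i, hi⟩ := exists_mem_Ioc_zpow (show (0 : ℝ) < a from ha) (one_lt_two)
    exact Set.mem_iUnion.2 ⟨i, hi⟩
  filter_upwards [h8] with a ha
  have h9 := ha.const_mul (2 : ℂ)
  rw [mul_zero] at h9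
  refine h9.congr fun N => ?_
  have h10 : ∑ n ∈ Icc 1 N, GG p F n a = (1 / 2 : ℂ) * (∑ n ∈ Icc 1 N, F (a * p n) -
      ∫ v in (0 : ℝ)..N, F (a * p v)) := by
    have := sum_GG hpm hF hF1 (Nat.zero_le N) a
    rw [Nat.cast_zero] at this
    exact this
  rw [h10]
  ring

end Pool.Agent.Y448.MC
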